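import Pool.Agent.TH131.LInd.Main

/-!
# Independence of `ℓ` of local Euler factors and cubic hypersurfaces
-/

set_option autoImplicit false

open CategoryTheory AlgebraicGeometry

namespace Pool.Agent.Results.MP_a3c811_ag.CubicHypersurfaces

open Pool.Agent.TH90.Cub Pool.Agent.TH590.JH Pool.Agent.TH131.Semi Pool.Agent.TH131.LInd

universe v u

/-- **Independence of `ℓ` and cubic hypersurfaces.** Let `p` be a prime. Say that a motive `M` over
`ℚ` is *independent of `ℓ` at `p`* if for all endomorphisms `f` of `M` and `n ≥ 1` the trace of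
`F_p^n f` on the inertia invariants `M_ℓ^{I_p}` is a rational number which is the same for all
`ℓ ≠ p`. The following are equivalent:

* all pure motives over `ℚ` are independent of `ℓ` at `p`;
* `Gr^W_w H_c^j(C)` is independent of `ℓ` at `p` for all `w`, `j` and all hypersurfaces `C` with an
  equation `g_0 t_0 + ⋯ + g_r t_r = 1` in the affine space over `ℚ` with the coordinates
  `x_1, …, x_n, t_0, …, t_r`, each `g_i` being of the form `x_a x_b - x_c`, `x_a + x_b - x_c` or
  `x_a - 1`.

If they hold, then `Gr^W_w H_c^i(X)` is independent of `ℓ` at `p` for all separated schemes `X` of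
finite type over `ℚ`, and the traces of the powers of `F_p` on the inertia invariants of all
motives `π H^i(X)(r)`, `X` smooth projective over `ℚ`, `π` idempotent, are rational and do not
depend on `ℓ ≠ p`. The hypersurfaces `C` are smooth over `ℚ`. -/
theorem result (p : ℕ) {𝓐 : Type u} [Category.{v} 𝓐] [Abelian 𝓐]
    (T : WeightTheory ℚ 𝓐) (𝓦 : Weights T.toTheory)
    (𝓡 : Inertia T.toTheory (Coefficients p)) :
    (𝓡.AllIndep ↔ 𝓡.CubicsIndep 𝓦 {1}) ∧
    (𝓡.AllIndep → 𝓡.SchemesIndep 𝓦) ∧
    (𝓡.AllIndep → 𝓡.ChowIndep) ∧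
    CubicsSmooth ℚ := by
  have h := main T 𝓦 𝓡 (S := {1}) closure_one_rat (Set.mem_singleton 1)
  exact ⟨h.1, h.2.1, h.2.2, cubicsSmooth ℚ⟩

end Pool.Agent.Results.MP_a3c811_ag.CubicHypersurfaces
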