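import Pool.Agent.TH121.WD.Ext

/-!
# MP_a3c811_ag: independence of `ℓ` of the Euler factors and of the Weil-Deligne representations

Fix a prime `p`. `R : Realisations W Λ K` collects the Weil-Deligne representations at `p` attached to
the `ℓ`-adic realisations `V_ℓ^i(M)` of the Chow motives `M` over `ℚ`, `ℓ ≠ p`, and `IsMotivic G R`
lists the known properties which are used (see the file of the definitions).

The statement Q1 of the problem at `p` (for all Chow motives `M` over `ℚ` and all `i` the polynomial
`det(1 - T Frob_p)` on `V_ℓ^i(M)^{I_p}` has rational coefficients and does not depend on `ℓ ≠ p`)
holds if and only if for all Chow motives `M` over `ℚ`, all `i`, all `t ≥ 0` and **all** elements `w`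
of the Weil group of `ℚ_p` the trace of `w` on the kernel of `N^t` in the Weil-Deligne representation
attached to `V_ℓ^i(M)` is a rational number which does not depend on `ℓ ≠ p`.

The second statement says that the Weil-Deligne representations attached to `V_ℓ^i(M)`, for
`ℓ ≠ p`, are defined over `ℚ` as far as their characters are concerned and are isomorphic over the
complex numbers up to Frobenius semisimplification (the conjecture `C_WD` for all motives); it
includes the independence of `ℓ` of the action of the inertia group up to semisimplification, of the
conductor and of the sizes of the Jordan blocks of `N`.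

Proof. Let `E` be an elliptic curve over `ℚ` with split multiplicative reduction at `p`. The kernel of
`N` on `V_ℓ^i(M) ⊗ Sym^t H^1(E)` is isomorphic to the kernel of `N^(t+1)` on `V_ℓ^i(M)`. For an
element `w` of degree `n > 0` of the Weil group and for two primes `ℓ`, `ℓ'` let `L` be a number
field with one place above `p` such that the Weil group of its completion is generated by `w` and an
open subgroup of inertia which acts trivially for `ℓ` and `ℓ'`; then the trace of `Frob_p^n` on the
invariants of inertia in the realisation of `M ⊗ Sym^t h^1(E) ⊗ h(Spec L)` is `n` times the trace of
`w` on the kernel of `N^(t+1)`. The elements of degree `≤ 0` are treated with the theorem of Cayley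
and Hamilton, and the converse with averages over the inertia group.
-/

set_option autoImplicit false

namespace Pool.Agent.Results.MP_a3c811_ag.WeilDeligne

open Pool.Agent.TH121.WD

/-- **The Euler factors at `p` of all Chow motives over `ℚ` are independent of `ℓ` if and only if
their Weil-Deligne representations at `p` are.** -/
theorem result {W : Type} [Group W] [TopologicalSpace W] [IsTopologicalGroup W]
    (G : WeilGroup W) {Λ : Type} {K : Λ → Type} [∀ ℓ, Field (K ℓ)] [∀ ℓ, CharZero (K ℓ)]
    (R : Realisations W Λ K) (hR : IsMotivic G R) :
    QOne G R ↔ Compatible R :=
  ((qOne_iff G R).trans (main hR.motivic)).trans (compatible_iff R).symm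

end Pool.Agent.Results.MP_a3c811_ag.WeilDeligne
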